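import Mathlib
import Pool.Agent.Lib.MP_85963d_gt.H92.Main
import Pool.Agent.Lib.MP_85963d_gt.H73.Per

/-!
# Two different symmetric convex bodies in `ℝ³` with equal perimeters of central sections
-/

set_option autoImplicit false

open scoped Pointwise

namespace Pool.Agent.Results.MP_85963d_gt.EqualPerimeters

/-- Euclidean three-space. -/
abbrev E : Type := EuclideanSpace ℝ (Fin 3)

/-- Origin-symmetric convex bodies. -/
structure IsSymBody (K : Set E) : Prop where
  compact : IsCompact K
  convex : Convex ℝ K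
  nonempty_interior : (interior K).Nonempty
  symmetric : -K = K

/-- The plane through the origin orthogonal to `e`. -/
def plane (e : E) : Set E := {x : E | inner ℝ e x = (0 : ℝ)}

/-- The relative boundary, inside the plane `plane e`, of a subset `A` of `plane e`: the points
of `plane e` arbitrarily close to `A` and to `plane e \ A`. -/
def relBoundary (e : E) (A : Set E) : Set E :=
  {x : E | x ∈ plane e ∧ ∀ ε > 0, (∃ y ∈ A, dist x y < ε) ∧ ∃ y ∈ plane e \ A, dist x y < ε}

/-- The perimeter of the central section of `K` orthogonal to `e`: the length (one-dimensional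
Hausdorff measure) of its relative boundary in `plane e`. -/
noncomputable def perimeter (K : Set E) (e : E) : ENNReal :=
  MeasureTheory.Measure.hausdorffMeasure (1 : ℝ) (relBoundary e (K ∩ plane e))

open Pool.Agent.MP85963d in
/-- There are two origin-symmetric convex bodies in `ℝ³`, neither of them a dilate of the other,
whose sections by every plane through the origin have the same (finite, positive) perimeter. -/
theorem result : ∃ K₁ K₂ : Set E, IsSymBody K₁ ∧ IsSymBody K₂ ∧ K₁ ≠ K₂ ∧
    (∀ c : ℝ, K₂ ≠ c • K₁) ∧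
    ∀ e : E, e ≠ 0 → perimeter K₁ e = perimeter K₂ e ∧ 0 < perimeter K₁ e ∧
      perimeter K₁ e < ⊤ := by
  have h := nonUniqueness
  unfold NonUniqueness at h
  push Not at h
  obtain ⟨K₁, K₂, k₁, c₁, i₁, s₁, k₂, c₂, i₂, s₂, hper, hne⟩ := h
  have neg_eq : ∀ K : Set E, (∀ x ∈ K, -x ∈ K) → -K = K := by
    intro K hK
    ext x
    rw [Set.mem_neg]
    exact ⟨fun h => by simpa using hK _ h, fun h => hK _ h⟩
  have t₁ := neg_eq K₁ s₁
  have t₂ := neg_eq K₂ s₂
  have n₁ := H73.zero_mem_nhds c₁ i₁ t₁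
  have n₂ := H73.zero_mem_nhds c₂ i₂ t₂
  have per : ∀ (K : Set E), IsCompact K → Convex ℝ K → K ∈ nhds (0 : E) → ∀ e : E,
      perimeter K e = MeasureTheory.Measure.hausdorffMeasure (1 : ℝ) (H73.gs K e) := by
    intro K hk hc hn e
    unfold perimeter
    congr 1
    exact H73.relBoundary_eq hk hc hn e (plane e) rfl
  have fr : ∀ (K : Set E), IsCompact K → Convex ℝ K → K ∈ nhds (0 : E) → ∀ e : E,
      intrinsicFrontier ℝ (K ∩ {x : E | inner ℝ x e = (0:ℝ)}) = H73.gs K e := fun K hk hc hn e =>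
    H72.intrinsicFrontier_section hk hc hn e
  have hper' : ∀ e : E, e ≠ 0 → MeasureTheory.Measure.hausdorffMeasure (1 : ℝ) (H73.gs K₁ e)
      = MeasureTheory.Measure.hausdorffMeasure (1 : ℝ) (H73.gs K₂ e) := by
    intro e he
    have := hper e he
    rwa [fr K₁ k₁ c₁ n₁, fr K₂ k₂ c₂ n₂] at this
  have pos : ∀ e : E, e ≠ 0 → 0 < MeasureTheory.Measure.hausdorffMeasure (1 : ℝ) (H73.gs K₁ e) :=
    fun e he => H73.per_pos k₁ c₁ n₁ he
  have fin : ∀ e : E, e ≠ 0 → MeasureTheory.Measure.hausdorffMeasure (1 : ℝ) (H73.gs K₁ e) < ⊤ :=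
    fun e he => H73.per_lt_top k₁ c₁ n₁ he
  refine ⟨K₁, K₂, ⟨k₁, c₁, i₁, t₁⟩, ⟨k₂, c₂, i₂, t₂⟩, hne, ?_, ?_⟩
  · intro c hc
    obtain ⟨e, he⟩ := exists_ne (0 : E)
    have hc0 : c ≠ 0 := by
      rintro rfl
      obtain ⟨x, hx⟩ := i₂
      have h1 : K₂ ⊆ {0} := by rw [hc]; exact Set.zero_smul_set_subset K₁
      have h2 := interior_mono h1 hx
      rw [interior_singleton] at h2
      exact h2
    have habs : K₂ = |c| • K₁ := by
      rcases le_total 0 c with h0 | h0
      · rw [abs_of_nonneg h0]; exact hc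
      · rw [abs_of_nonpos h0, Set.neg_smul_set, ← Set.smul_set_neg, t₁]; exact hc
    have hcp : 0 < |c| := abs_pos.2 hc0
    have h1 := hper' e he
    rw [habs, H73.per_smul hcp] at h1
    have h2 : ENNReal.ofReal |c| = 1 := by
      have h3 : (1 : ENNReal) * MeasureTheory.Measure.hausdorffMeasure (1 : ℝ) (H73.gs K₁ e)
          = ENNReal.ofReal |c| * MeasureTheory.Measure.hausdorffMeasure (1 : ℝ)
            (H73.gs K₁ e) := by rw [one_mul]; exact h1
      exact ((ENNReal.mul_left_inj (pos e he).ne' (fin e he).ne).1 h3).symm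
    have h4 : |c| = 1 := by
      rwa [ENNReal.ofReal_eq_one] at h2
    rw [h4, one_smul] at habs
    exact hne habs.symm
  · intro e he
    rw [per K₁ k₁ c₁ n₁, per K₂ k₂ c₂ n₂]
    exact ⟨hper' e he, pos e he, fin e he⟩

end Pool.Agent.Results.MP_85963d_gt.EqualPerimeters
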