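import Mathlib
import Pool.Agent.Lib.MP_85963d_gt.Section

/-!
# Perimeters of central sections determine symmetric convex bodies with pinched `C²` gauge

For a symmetric convex body `K` in `ℝ³` write `Φ = gauge K`. The body is called
`(τ, κ)`-pinched if `Φ` is `C²` away from the origin and, at every unit vector `u` and for all
orthonormal `a, b` in the plane `u^⊥`, the tangential part of the gradient of `Φ` at `u` is at
most `τ Φ(u)` and the Hessian of `Φ` at `u` satisfies `D²Φ(a,a) > 0` and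
`2 |D²Φ(a,b)| ≤ κ D²Φ(a,a)`. Euclidean balls centred at the origin are `(0,0)`-pinched.
If `κ + (3/2) τ² < 1` then two `(τ, κ)`-pinched symmetric convex bodies whose sections by every
plane through the origin have equal perimeters coincide.
-/

set_option autoImplicit false

namespace Pool.Agent.Results.MP_85963d_gt.PinchedUniqueness

/-- Euclidean three-space. -/
abbrev E : Type := EuclideanSpace ℝ (Fin 3)

/-- Origin-symmetric convex bodies. -/
structure IsSymBody (K : Set E) : Prop where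
  compact : IsCompact K
  convex : Convex ℝ K
  nonempty_interior : (interior K).Nonempty
  symmetric : ∀ x ∈ K, -x ∈ K

/-- The plane through the origin orthogonal to `e`. -/
def plane (e : E) : Set E := {x : E | inner ℝ x e = (0 : ℝ)}

/-- The perimeter of the central section of `K` orthogonal to `e`: the one-dimensional Hausdorff
measure of the relative boundary of the section. -/
noncomputable def perimeter (K : Set E) (e : E) : ENNReal :=
  MeasureTheory.Measure.hausdorffMeasure (1 : ℝ) (intrinsicFrontier ℝ (K ∩ plane e))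

/-- Orthonormal triples. -/
def IsFrame (u a b : E) : Prop :=
  (‖u‖ = 1 ∧ ‖a‖ = 1 ∧ ‖b‖ = 1) ∧
    inner ℝ u a = (0 : ℝ) ∧ inner ℝ u b = (0 : ℝ) ∧ inner ℝ a b = (0 : ℝ)

/-- The derivative of the gauge of `K` at `u` in direction `a`. -/
noncomputable def gradG (K : Set E) (u a : E) : ℝ := fderiv ℝ (gauge K) u a

/-- The second derivative of the gauge of `K` at `u` in directions `a` and `b`. -/
noncomputable def hessG (K : Set E) (u a b : E) : ℝ := fderiv ℝ (fderiv ℝ (gauge K)) u a b

/-- The gauge of `K` is `C²` off the origin. -/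
def SmoothGauge (K : Set E) : Prop := ContDiffOn ℝ 2 (gauge K) {0}ᶜ

/-- The pinching condition on a convex body, in terms of its gauge. -/
def Pinched (τ κ : ℝ) (K : Set E) : Prop :=
  SmoothGauge K ∧ ∀ u a b : E, IsFrame u a b →
    gradG K u a ^ 2 + gradG K u b ^ 2 ≤ τ ^ 2 * gauge K u ^ 2 ∧
      0 < hessG K u a a ∧ 2 * |hessG K u a b| ≤ κ * hessG K u a a

open Pool.Agent.MP85963d in
/-- Two pinched symmetric convex bodies in `ℝ³` whose central sections have equal perimeters
in every direction are equal. -/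
theorem result (τ κ : ℝ) (hτ : 0 ≤ τ) (hκ : κ + 3 / 2 * τ ^ 2 < 1) (K₁ K₂ : Set E)
    (hK₁ : IsSymBody K₁) (hP₁ : Pinched τ κ K₁) (hK₂ : IsSymBody K₂) (hP₂ : Pinched τ κ K₂)
    (hper : ∀ e : E, e ≠ 0 → perimeter K₁ e = perimeter K₂ e) : K₁ = K₂ := by
  obtain ⟨hk₁, hc₁, hi₁, hs₁⟩ := hK₁
  obtain ⟨hk₂, hc₂, hi₂, hs₂⟩ := hK₂
  have n₁ := zero_mem_nhds_body hc₁ hi₁ hs₁
  have n₂ := zero_mem_nhds_body hc₂ hi₂ hs₂
  have g₁ := isGauge_gauge hk₁ hc₁ hi₁ hs₁ hP₁.1
  have g₂ := isGauge_gauge hk₂ hc₂ hi₂ hs₂ hP₂.1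
  have conv : ∀ {K : Set (EuclideanSpace ℝ (Fin 3))}, Pinched τ κ K →
      Pool.Agent.MP85963d.Pinched τ κ (gauge K) := by
    intro K hP
    refine ⟨?_, ?_, ?_⟩
    · intro u a b hu ha hb hua hub hab
      exact (hP.2 u a b ⟨⟨hu, ha, hb⟩, hua, hub, hab⟩).1
    · intro u a hu ha hua
      -- complete `u, a` to an orthonormal triple
      obtain ⟨b, hb, hub, hab⟩ := exists_third hu ha hua
      exact (hP.2 u a b ⟨⟨hu, ha, hb⟩, hua, hub, hab⟩).2.1
    · intro u a b hu ha hb hua hub hab
      exact (hP.2 u a b ⟨⟨hu, ha, hb⟩, hua, hub, hab⟩).2.2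
  have hp : ∀ z : Quaternion ℝ, z ≠ 0 → Pool.Agent.MP85963d.hper (gauge K₁) z
      = Pool.Agent.MP85963d.hper (gauge K₂) z := by
    intro z hz
    have he : fe z ≠ 0 := by
      intro h0
      have := norm_fe hz
      simp [h0] at this
    have h := hper (fe z) he
    unfold perimeter plane at h
    rw [intrinsicFrontier_section hk₁ hc₁ n₁, intrinsicFrontier_section hk₂ hc₂ n₂,
      hausdorff_section g₁ hz, hausdorff_section g₂ hz] at h
    have h' := (ENNReal.ofReal_eq_ofReal_iff
      (mul_nonneg zero_le_two (hper_nonneg z)) (mul_nonneg zero_le_two (hper_nonneg z))).1 h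
    linarith
  have hunit := gauge_eq g₁ g₂ hτ hκ (conv hP₁) (conv hP₂) hp
  have hall : ∀ x, gauge K₁ x = gauge K₂ x := by
    intro x
    by_cases hx : x = 0
    · rw [hx, gauge_zero, gauge_zero]
    · have hn : 0 < ‖x‖ := norm_pos_iff.2 hx
      have hx' : x = ‖x‖ • (‖x‖⁻¹ • x) := by
        rw [smul_smul, mul_inv_cancel₀ hn.ne', one_smul]
      rw [hx', g₁.hom _ _ hn, g₂.hom _ _ hn, hunit (‖x‖⁻¹ • x)]
      rw [norm_smul, norm_inv, norm_norm, inv_mul_cancel₀ hn.ne']
  ext x
  have e₁ := gauge_le_one_iff_mem_closure (x := x) hc₁ n₁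
  have e₂ := gauge_le_one_iff_mem_closure (x := x) hc₂ n₂
  rw [hk₁.isClosed.closure_eq] at e₁
  rw [hk₂.isClosed.closure_eq] at e₂
  rw [← e₁, ← e₂, hall]

end Pool.Agent.Results.MP_85963d_gt.PinchedUniqueness
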